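import Pool.Agent.H74.RCM.Stmts

/-!
# RCM: row DE2
-/

set_option autoImplicit false

namespace Pool.RCM

open scoped Classical
open Finset

section

variable {V E : Type} [Fintype V] [Fintype E]

omit [Fintype V] [Fintype E] in
theorem conn_symm61 (a b : E → V) (s : Set E) {u v : V} (h : Conn a b s u v) : Conn a b s v u := by
  unfold Conn at h ⊢
  induction h with
  | refl => exact Relation.ReflTransGen.refl
  | tail h1 h2 ih =>
    obtain ⟨e, he, hj⟩ := h2
    exact Relation.ReflTransGen.head ⟨e, he, hj.elim Or.inr Or.inl⟩ ih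

omit [Fintype V] [Fintype E] in
theorem conn_mono61 (a b : E → V) {s t : Set E} (hst : s ⊆ t) {u v : V} (h : Conn a b s u v) :
    Conn a b t u v := by
  unfold Conn at h ⊢
  induction h with
  | refl => exact Relation.ReflTransGen.refl
  | tail h1 h2 ih =>
    obtain ⟨e, he, hj⟩ := h2
    exact Relation.ReflTransGen.tail ih ⟨e, hst he, hj⟩

omit [Fintype E] in
/-- Connections outside the union of the clusters of `A`. -/
theorem conn_out61 (a b : E → V) (A : Set V) (s : Set E) (Q : Finset V) (hQ : Cl a b A s = Q)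
    {u v : V} (hu : u ∉ Q) (h : Conn a b s u v) : Conn a b (s ∩ Ein a b Qᶜ) u v := by
  have hout : ∀ p, Conn a b s u p → p ∉ Q := by
    intro p hp hpQ
    rw [← hQ, Cl, mem_filter] at hpQ
    obtain ⟨_, w, hw, hwp⟩ := hpQ
    apply hu
    rw [← hQ, Cl, mem_filter]
    exact ⟨mem_univ _, w, hw, Relation.ReflTransGen.trans hwp (conn_symm61 a b s hp)⟩
  have key : ∀ p, Conn a b s u p → Conn a b (s ∩ Ein a b Qᶜ) u p := by
    intro p hp
    induction hp with
    | refl => exact Relation.ReflTransGen.refl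
    | tail h1 h2 ih =>
      rename_i p q
      have hp : p ∉ Q := hout p h1
      have hq : q ∉ Q := hout q (Relation.ReflTransGen.tail h1 h2)
      obtain ⟨e, he, hj⟩ := h2
      refine Relation.ReflTransGen.tail ih ⟨e, ⟨he, ?_⟩, hj⟩
      change a e ∈ Qᶜ ∧ b e ∈ Qᶜ
      rw [mem_compl, mem_compl]
      rcases hj with ⟨h3, h4⟩ | ⟨h3, h4⟩
      · rw [h3, h4]
        exact ⟨hp, hq⟩
      · rw [h3, h4]
        exact ⟨hq, hp⟩
  exact key v h

omit [Fintype E] in
theorem cl_out61 (a b : E → V) (A B : Set V) (s : Set E) (Q : Finset V) (hQ : Cl a b A s = Q)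
    (hB : ∀ v ∈ B, v ∉ Q) : Cl a b B (s ∩ Ein a b Qᶜ) = Cl a b B s := by
  ext v
  rw [Cl, Cl, mem_filter, mem_filter]
  constructor
  · rintro ⟨h1, u, hu, h2⟩
    exact ⟨h1, u, hu, conn_mono61 a b Set.inter_subset_left h2⟩
  · rintro ⟨h1, u, hu, h2⟩
    exact ⟨h1, u, hu, conn_out61 a b A s Q hQ (hB u hu) h2⟩

/-- Decomposition of `FS` according to the value of a function of the open edges. -/
theorem FS_split61 (a b : E → V) (J : E → ℝ) (S₁ S₂ : Finset V) (D : Set E → Prop)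
    (c : Set E → Finset V) :
    FS a b J S₁ S₂ D = ∑ Q : Finset V, FS a b J S₁ S₂ (fun s => c s = Q ∧ D s) := by
  unfold FS
  rw [sum_comm]
  refine sum_congr rfl (fun ω _ => ?_)
  have h2 : ∑ Q : Finset V, (if c (supp ω) = Q then (if IsSrc a b (par1 ω) S₁ ∧
      IsSrc a b (par2 ω) S₂ ∧ D (supp ω) then ∏ e, wst (J e) (ω e) else 0) else 0) =
      if IsSrc a b (par1 ω) S₁ ∧ IsSrc a b (par2 ω) S₂ ∧ D (supp ω) then
        ∏ e, wst (J e) (ω e) else 0 := by
    rw [sum_ite_eq, if_pos (mem_univ _)]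
  rw [← h2]
  refine sum_congr rfl (fun Q _ => ?_)
  by_cases h : c (supp ω) = Q
  · simp only [h, true_and, if_true]
  · simp only [h, false_and, and_false, if_false]

omit [Fintype V] in
theorem FS_congr61 (a b : E → V) (J : E → ℝ) (S₁ S₂ : Finset V) {D D' : Set E → Prop}
    (h : ∀ s, D s ↔ D' s) : FS a b J S₁ S₂ D = FS a b J S₁ S₂ D' := by
  have : D = D' := funext (fun s => propext (h s))
  rw [this]

omit [Fintype V] in
theorem FS_false61 (a b : E → V) (J : E → ℝ) (S₁ S₂ : Finset V) {D : Set E → Prop}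
    (h : ∀ s, ¬ D s) : FS a b J S₁ S₂ D = 0 := by
  unfold FS
  refine sum_eq_zero (fun ω _ => ?_)
  rw [if_neg]
  rintro ⟨_, _, h1⟩
  exact h _ h1

end

/-- Exploration of two clusters. -/
theorem DE2 (hEXP : EXPStmt) (hDE1 : DE1Stmt) (hCAR : CARStmt) (hRES : RESStmt) : DE2Stmt := by
  intro V E _ _ a b J A B x S hS
  rw [FS_split61 a b J S ∅ _ (Cl a b A)]
  refine sum_congr rfl (fun Q _ => ?_)
  by_cases hxQ : x ∈ Q
  · rw [FS_false61 a b J S ∅]
    · rw [sum_eq_zero]
      intro T _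
      rw [if_neg]
      rintro ⟨h, _⟩
      exact h hxQ
    · rintro s ⟨h1, _, h2, _⟩
      rw [h1] at h2
      exact h2 hxQ
  by_cases hBQ : ∀ v ∈ B, v ∉ Q
  · have h1 : FS a b J S ∅ (fun s => Cl a b A s = Q ∧ (Sepd a b A B s ∧ x ∉ Cl a b A s ∧
        x ∉ Cl a b B s)) =
        FS a b J S ∅ (fun s => Cl a b A s = Q ∧ (fun t => x ∉ Cl a b B t) (s ∩ Ein a b Qᶜ)) := by
      refine FS_congr61 a b J S ∅ (fun s => ?_)
      constructor
      · rintro ⟨h1, _, _, h2⟩
        refine ⟨h1, ?_⟩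
        change x ∉ Cl a b B (s ∩ Ein a b Qᶜ)
        rw [cl_out61 a b A B s Q h1 hBQ]
        exact h2
      · rintro ⟨h1, h2⟩
        change x ∉ Cl a b B (s ∩ Ein a b Qᶜ) at h2
        rw [cl_out61 a b A B s Q h1 hBQ] at h2
        refine ⟨h1, ?_, ?_, h2⟩
        · rintro ⟨u, hu, v, hv, huv⟩
          apply hBQ v hv
          rw [← h1, Cl, mem_filter]
          exact ⟨mem_univ _, u, hu, huv⟩
        · rw [h1]
          exact hxQ
    have hS' : S = ∅ ∨ ∃ x y, x ≠ y ∧ x ∉ Q ∧ S = {x, y} := by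
      rcases hS with h | ⟨y, h2, h3⟩
      · exact Or.inl h
      · exact Or.inr ⟨x, y, h2, hxQ, h3⟩
    rw [h1.trans (hEXP V E a b J A Q S (fun t => x ∉ Cl a b B t) hS')]
    have h2 : FS a b (res a b J Qᶜ) S ∅ (fun t => x ∉ Cl a b B t) =
        FS a b (res a b J Qᶜ) S ∅ (fun s => Sepd a b ∅ B s ∧ x ∉ Cl a b B s) := by
      refine FS_congr61 a b _ S ∅ (fun s => ?_)
      constructor
      · intro h
        refine ⟨?_, h⟩
        rintro ⟨u, hu, _⟩
        exact hu
      · exact fun h => h.2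
    rw [h2, hDE1 V E a b (res a b J Qᶜ) ∅ B x S hS, mul_sum]
    refine sum_congr rfl (fun T _ => ?_)
    rw [hCAR V E a b J B Q T hBQ, (hRES V E a b J).1 Q T]
    by_cases hxT : x ∈ T
    · rw [if_neg (fun h => h.1 hxT), if_neg (fun h => h.2.1 hxT), mul_zero]
    · rw [if_pos ⟨hxT, fun v hv => absurd hv (Set.notMem_empty v)⟩]
      by_cases hd : Disjoint Q T
      · rw [if_pos hd, if_pos ⟨hxQ, hxT, hd⟩]
        ring
      · rw [if_neg hd, if_neg (fun h => hd h.2.2)]
        ring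
  · have hBQ' : ∃ v ∈ B, v ∈ Q := by
      by_contra hcon
      exact hBQ (fun v hv hvQ => hcon ⟨v, hv, hvQ⟩)
    obtain ⟨v, hvB, hvQ⟩ := hBQ'
    rw [FS_false61 a b J S ∅]
    · symm
      apply sum_eq_zero
      intro T _
      by_cases h : x ∉ Q ∧ x ∉ T ∧ Disjoint Q T
      · rw [if_pos h, (hRES V E a b J).2 B T ⟨v, hvB, fun hvT =>
          (Finset.disjoint_left.1 h.2.2) hvQ hvT⟩]
        ring
      · rw [if_neg h]
    · rintro s ⟨h1, h2, _⟩
      apply h2
      rw [← h1, Cl, mem_filter] at hvQ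
      obtain ⟨_, u, hu, huv⟩ := hvQ
      exact ⟨u, hu, v, hvB, huv⟩


end Pool.RCM
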