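import Pool.Agent.H74.RCM.Stmts

/-!
# RCM: row PIH
-/

set_option autoImplicit false

namespace Pool.RCM

open scoped Classical
open Finset

/-- The statement for one index type. -/
def PihP (X E : Type) [Fintype E] : Prop :=
  ∀ (f : E → X → ℝ) (c : E → ℝ), (∀ e x, 0 ≤ f e x) → (∀ e, HasSum (f e) (c e)) →
      HasSum (fun n : E → X => ∏ e, f e (n e)) (∏ e, c e)

theorem pihP_equiv (X : Type) {α β : Type} [Fintype α] [Fintype β] (e : α ≃ β)
    (ih : PihP X α) : PihP X β := by
  intro f c h0 hs
  have h1 := ih (fun a => f (e a)) (fun a => c (e a)) (fun a x => h0 _ x) (fun a => hs _)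
  have h2 := (Equiv.hasSum_iff (e.arrowCongr (Equiv.refl X)).symm).2 h1
  rw [← Equiv.prod_comp e c]
  have h4 : (fun n : β → X => ∏ b, f b (n b)) =
      (fun n : α → X => ∏ a, f (e a) (n a)) ∘ (e.arrowCongr (Equiv.refl X)).symm := by
    funext n
    rw [← Equiv.prod_comp e (fun b => f b (n b))]
    rfl
  rw [h4]
  exact h2

theorem pihP_empty (X : Type) : PihP X PEmpty := by
  intro f c _ _
  have h : (∏ e, c e) = (fun n : PEmpty → X => ∏ e, f e (n e)) default := by
    simp
  rw [h]
  exact hasSum_unique _

theorem pihP_option (X α : Type) [Fintype α] (ih : PihP X α) : PihP X (Option α) := by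
  intro f c h0 hs
  have h1 := ih (fun e => f (some e)) (fun e => c (some e)) (fun e x => h0 _ x)
    (fun e => hs _)
  have h2 : HasSum (fun p : X × (α → X) => f none p.1 * ∏ e, f (some e) (p.2 e))
      (c none * ∏ e, c (some e)) := by
    refine (hs none).mul h1 ?_
    exact (hs none).summable.mul_of_nonneg h1.summable (fun x => h0 _ x)
      (fun n => prod_nonneg (fun e _ => h0 _ _))
  have h3 := (Equiv.hasSum_iff (Equiv.piOptionEquivProd (α := α) (β := fun _ => X))).2 h2
  rw [Fintype.prod_option]
  have h4 : (fun n : Option α → X => ∏ e, f e (n e)) =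
      (fun p : X × (α → X) => f none p.1 * ∏ e, f (some e) (p.2 e)) ∘
        (Equiv.piOptionEquivProd (α := α) (β := fun _ => X)) := by
    funext n
    rw [Fintype.prod_option]
    rfl
  rw [h4]
  exact h3

/-- Product of nonnegative sums over a finite index set. -/
theorem PIH : PIHStmt := by
  intro E X _
  exact Fintype.induction_empty_option (P := fun E _ => PihP X E)
    (fun α β _ e ih => @pihP_equiv X α β (Fintype.ofEquiv _ e.symm) _ e ih) (pihP_empty X)
    (fun α _ ih => pihP_option X α ih) E


end Pool.RCM
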