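import Pool.Agent.H74.RCM.Stmts

/-!
# RCM: row UNI
-/

set_option autoImplicit false

namespace Pool.RCM

open scoped Classical
open Finset

/-- The key inequality for an edge which is the only one not touching `A ∪ B`. -/
theorem UNI (hDEC : DECStmt) (hSQ : SQStmt) (hMAR : MARStmt) (hNBR : NBRStmt) (hDOM : DOMStmt)
    (hNNG : NNGStmt) (hRES : RESStmt) : UNIStmt := by
  intro V E _ _ a b J e A B hl hJ hedge
  have hxy : a e ≠ b e := hl e
  set x := a e with hx
  set y := b e with hy
  set Y := Zc a b J {x, y} with hY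
  set Z := Zc a b J ∅ with hZ
  have hres : ∀ U : Finset V, ∀ f, 0 ≤ res a b J U f := by
    intro U f
    unfold res
    split_ifs
    · exact hJ f
    · exact le_refl _
  have hres' : ∀ U : Finset V, ∀ f, res a b J U f ≤ J f := by
    intro U f
    unfold res
    split_ifs
    · exact le_refl _
    · exact hJ f
  have hNx : ∀ Q : Finset V, 0 < Nx a b J x Q := fun Q =>
    (hNNG V E a b (res a b J (insert x Q)ᶜ) (hres _)).1
  have hBr : ∀ Q : Finset V, 0 ≤ Br a b J x y Q := by
    intro Q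
    have h1 := hDOM V E a b J (res a b J Qᶜ) x y hxy (hres _) (hres' _)
    have h2 := (hNNG V E a b (res a b J Qᶜ) (hres _)).1
    unfold Br
    refine mul_nonneg h2.le ?_
    nlinarith [h1]
  have hcA : ∀ (A : Set V) (T : Finset V), 0 ≤ cA a b J A T := (hNNG V E a b J hJ).2.2.2.1
  -- the two decompositions
  have hX := hDEC V E a b J A B x {x, y} (Or.inr ⟨y, hxy, rfl⟩)
  have hS := hDEC V E a b J A B x ∅ (Or.inl rfl)
  have hbr : ∀ Q : Finset V, Br a b J x y Q =
      FS a b (res a b J Qᶜ) ∅ ∅ (fun _ => True) * Y -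
      FS a b (res a b J Qᶜ) {x, y} ∅ (fun _ => True) * Z := by
    intro Q
    rw [hSQ, hSQ]
    unfold Br
    ring
  have hdiff : FS a b J ∅ ∅ (Sepd a b A B) * Y - FS a b J {x, y} ∅ (Sepd a b A B) * Z =
      (∑ T : Finset V, if x ∉ T ∧ ∀ v ∈ A, v ∉ T then cA a b J B T * Br a b J x y T else 0)
      + (∑ Q : Finset V, if x ∉ Q ∧ ∀ v ∈ B, v ∉ Q then cA a b J A Q * Br a b J x y Q else 0)
      - ∑ Q : Finset V, ∑ T : Finset V, if x ∉ Q ∧ x ∉ T ∧ Disjoint Q T then
        cA a b J A Q * cA a b J B T * Br a b J x y (Q ∪ T) else 0 := by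
    have e1 : ∀ (C D : Set V), (∑ T : Finset V, if x ∉ T ∧ ∀ v ∈ C, v ∉ T then
        cA a b J D T * Br a b J x y T else 0) =
        (∑ T : Finset V, if x ∉ T ∧ ∀ v ∈ C, v ∉ T then
          cA a b J D T * FS a b (res a b J Tᶜ) ∅ ∅ (fun _ => True) else 0) * Y -
        (∑ T : Finset V, if x ∉ T ∧ ∀ v ∈ C, v ∉ T then
          cA a b J D T * FS a b (res a b J Tᶜ) {x, y} ∅ (fun _ => True) else 0) * Z := by
      intro C D
      rw [sum_mul, sum_mul, ← sum_sub_distrib]
      refine sum_congr rfl (fun T _ => ?_)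
      split_ifs
      · rw [hbr]
        ring
      · ring
    have e2 : (∑ Q : Finset V, ∑ T : Finset V, if x ∉ Q ∧ x ∉ T ∧ Disjoint Q T then
        cA a b J A Q * cA a b J B T * Br a b J x y (Q ∪ T) else 0) =
        (∑ Q : Finset V, ∑ T : Finset V, if x ∉ Q ∧ x ∉ T ∧ Disjoint Q T then
          cA a b J A Q * cA a b J B T * FS a b (res a b J (Q ∪ T)ᶜ) ∅ ∅ (fun _ => True)
            else 0) * Y -
        (∑ Q : Finset V, ∑ T : Finset V, if x ∉ Q ∧ x ∉ T ∧ Disjoint Q T then
          cA a b J A Q * cA a b J B T * FS a b (res a b J (Q ∪ T)ᶜ) {x, y} ∅ (fun _ => True)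
            else 0) * Z := by
      rw [sum_mul, sum_mul, ← sum_sub_distrib]
      refine sum_congr rfl (fun Q _ => ?_)
      rw [sum_mul, sum_mul, ← sum_sub_distrib]
      refine sum_congr rfl (fun T _ => ?_)
      split_ifs
      · rw [hbr]
        ring
      · ring
    rw [e1 A B, e1 B A, e2, hX, hS]
    ring
  -- the weights
  set w : Finset V → Finset V → ℝ := fun Q T => if x ∉ Q ∧ x ∉ T ∧ Disjoint Q T then
    cA a b J A Q * cA a b J B T else 0 with hw
  have hw0 : ∀ Q T, 0 ≤ w Q T := by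
    intro Q T
    rw [hw]
    dsimp only
    split_ifs
    · exact mul_nonneg (hcA _ _) (hcA _ _)
    · exact le_refl _
  have h3 : ∀ Q T : Finset V, (if x ∉ Q ∧ x ∉ T ∧ Disjoint Q T then
      cA a b J A Q * cA a b J B T * Br a b J x y (Q ∪ T) else 0) ≤
      w Q T * (Br a b J x y T / Nx a b J x T ^ 2) * Nx a b J x (Q ∪ T) ^ 2 +
      w Q T * (Br a b J x y Q / Nx a b J x Q ^ 2) * Nx a b J x (Q ∪ T) ^ 2 := by
    intro Q T
    by_cases hc : x ∉ Q ∧ x ∉ T ∧ Disjoint Q T
    · have hwQT : w Q T = cA a b J A Q * cA a b J B T := by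
        rw [hw]
        dsimp only
        rw [if_pos hc]
      rw [if_pos hc]
      by_cases hA : ∀ v ∈ A, v ∈ Q
      · by_cases hB : ∀ v ∈ B, v ∈ T
        · have h4 := hNBR V E a b J e Q T hl hJ hc.2.2 hc.1 hc.2.1 (by
            intro f hf
            rcases hedge f hf with h5 | h5
            · left
              rw [mem_union]
              exact h5.elim (fun h => Or.inl (hA _ h)) (fun h => Or.inr (hB _ h))
            · right
              rw [mem_union]
              exact h5.elim (fun h => Or.inl (hA _ h)) (fun h => Or.inr (hB _ h)))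
          have hN := hNx (Q ∪ T)
          rw [div_le_iff₀ (by positivity)] at h4
          rw [← hwQT]
          have h5 := mul_le_mul_of_nonneg_left h4 (hw0 Q T)
          calc w Q T * Br a b J x y (Q ∪ T) ≤ _ := h5
            _ = _ := by ring
        · have hB' : ∃ v ∈ B, v ∉ T := by
            by_contra hcon
            exact hB (fun v hv => by_contra (fun hvT => hcon ⟨v, hv, hvT⟩))
          rw [hwQT, (hRES V E a b J).2 B T hB']
          simp
      · have hA' : ∃ v ∈ A, v ∉ Q := by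
          by_contra hcon
          exact hA (fun v hv => by_contra (fun hvT => hcon ⟨v, hv, hvT⟩))
        rw [hwQT, (hRES V E a b J).2 A Q hA']
        simp
    · rw [if_neg hc]
      have hwQT : w Q T = 0 := by
        rw [hw]
        dsimp only
        rw [if_neg hc]
      rw [hwQT]
      simp
  -- general form of the marginal bound
  have hgen : ∀ (C D : Set V) (T : Finset V), x ∉ T →
      ∑ Q : Finset V, (if x ∉ Q ∧ x ∉ T ∧ Disjoint Q T then cA a b J C Q * cA a b J D T else 0) *
        (Br a b J x y T / Nx a b J x T ^ 2) * Nx a b J x (Q ∪ T) ^ 2 ≤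
      cA a b J D T * Br a b J x y T := by
    intro C D T hxT
    have h4 := hMAR V E a b J C x T hJ
    have hN := hNx T
    have h5 : ∑ Q : Finset V, (if x ∉ Q ∧ x ∉ T ∧ Disjoint Q T then
        cA a b J C Q * cA a b J D T else 0) *
        (Br a b J x y T / Nx a b J x T ^ 2) * Nx a b J x (Q ∪ T) ^ 2 =
        (cA a b J D T * (Br a b J x y T / Nx a b J x T ^ 2)) *
        ∑ Q : Finset V, (if x ∉ Q ∧ Disjoint T Q then cA a b J C Q * Nx a b J x (T ∪ Q) ^ 2
          else 0) := by
      rw [mul_sum]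
      refine sum_congr rfl (fun Q _ => ?_)
      rw [union_comm Q T]
      by_cases hc : x ∉ Q ∧ Disjoint T Q
      · rw [if_pos hc, if_pos ⟨hc.1, hxT, hc.2.symm⟩]
        ring
      · rw [if_neg hc, if_neg (fun h => hc ⟨h.1, h.2.2.symm⟩)]
        ring
    rw [h5]
    have h6 : 0 ≤ cA a b J D T * (Br a b J x y T / Nx a b J x T ^ 2) :=
      mul_nonneg (hcA _ _) (div_nonneg (hBr T) (by positivity))
    calc _ ≤ cA a b J D T * (Br a b J x y T / Nx a b J x T ^ 2) * Nx a b J x T ^ 2 :=
          mul_le_mul_of_nonneg_left h4 h6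
      _ = cA a b J D T * Br a b J x y T := by
          field_simp
  have h1 : ∑ T : Finset V, ∑ Q : Finset V,
      w Q T * (Br a b J x y T / Nx a b J x T ^ 2) * Nx a b J x (Q ∪ T) ^ 2 ≤
      ∑ T : Finset V, if x ∉ T ∧ ∀ v ∈ A, v ∉ T then cA a b J B T * Br a b J x y T else 0 := by
    refine sum_le_sum (fun T _ => ?_)
    by_cases hc : x ∉ T ∧ ∀ v ∈ A, v ∉ T
    · rw [if_pos hc]
      exact hgen A B T hc.1
    · rw [if_neg hc]
      refine le_of_eq (sum_eq_zero (fun Q _ => ?_))
      have hwQT : w Q T = 0 := by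
        rw [hw]
        dsimp only
        by_cases hd : x ∉ Q ∧ x ∉ T ∧ Disjoint Q T
        · rw [if_pos hd]
          have : ∃ v ∈ A, v ∉ Q := by
            by_contra hcon
            apply hc
            refine ⟨hd.2.1, fun v hv hvT => ?_⟩
            apply hcon
            exact ⟨v, hv, fun hvQ => (Finset.disjoint_left.1 hd.2.2) hvQ hvT⟩
          rw [(hRES V E a b J).2 A Q this, zero_mul]
        · rw [if_neg hd]
      rw [hwQT]
      ring
  have h2 : ∑ Q : Finset V, ∑ T : Finset V,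
      w Q T * (Br a b J x y Q / Nx a b J x Q ^ 2) * Nx a b J x (Q ∪ T) ^ 2 ≤
      ∑ Q : Finset V, if x ∉ Q ∧ ∀ v ∈ B, v ∉ Q then cA a b J A Q * Br a b J x y Q else 0 := by
    refine sum_le_sum (fun Q _ => ?_)
    by_cases hc : x ∉ Q ∧ ∀ v ∈ B, v ∉ Q
    · rw [if_pos hc]
      refine le_trans (le_of_eq ?_) (hgen B A Q hc.1)
      refine sum_congr rfl (fun T _ => ?_)
      rw [union_comm Q T, hw]
      dsimp only
      by_cases hd : x ∉ Q ∧ x ∉ T ∧ Disjoint Q T
      · rw [if_pos hd, if_pos ⟨hd.2.1, hd.1, hd.2.2.symm⟩]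
        ring
      · rw [if_neg hd, if_neg (fun h => hd ⟨h.2.1, h.1, h.2.2.symm⟩)]
    · rw [if_neg hc]
      refine le_of_eq (sum_eq_zero (fun T _ => ?_))
      have hwQT : w Q T = 0 := by
        rw [hw]
        dsimp only
        by_cases hd : x ∉ Q ∧ x ∉ T ∧ Disjoint Q T
        · rw [if_pos hd]
          have : ∃ v ∈ B, v ∉ T := by
            by_contra hcon
            apply hc
            refine ⟨hd.1, fun v hv hvQ => ?_⟩
            apply hcon
            exact ⟨v, hv, fun hvT => (Finset.disjoint_left.1 hd.2.2) hvQ hvT⟩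
          rw [(hRES V E a b J).2 B T this, mul_zero]
        · rw [if_neg hd]
      rw [hwQT]
      ring
  have h4 : ∑ Q : Finset V, ∑ T : Finset V, (if x ∉ Q ∧ x ∉ T ∧ Disjoint Q T then
      cA a b J A Q * cA a b J B T * Br a b J x y (Q ∪ T) else 0) ≤
      (∑ T : Finset V, ∑ Q : Finset V,
        w Q T * (Br a b J x y T / Nx a b J x T ^ 2) * Nx a b J x (Q ∪ T) ^ 2) +
      ∑ Q : Finset V, ∑ T : Finset V,
        w Q T * (Br a b J x y Q / Nx a b J x Q ^ 2) * Nx a b J x (Q ∪ T) ^ 2 := by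
    rw [sum_comm (f := fun T Q => w Q T * (Br a b J x y T / Nx a b J x T ^ 2) *
      Nx a b J x (Q ∪ T) ^ 2), ← sum_add_distrib]
    refine sum_le_sum (fun Q _ => ?_)
    rw [← sum_add_distrib]
    exact sum_le_sum (fun T _ => h3 Q T)
  unfold Key
  change FS a b J {x, y} ∅ (Sepd a b A B) * Z ≤ FS a b J ∅ ∅ (Sepd a b A B) * Y
  linarith


end Pool.RCM
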